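import Pool.Agent.Helper74.DR.St

/-!
# Project DR (MP_26f0da_lc), module NOR: the rules of the symbols
-/

set_option autoImplicit false

namespace Pool.Agent.Helper78.DR

open Pool.Agent.Helper74.DR

theorem hNOR (hSPL : StSPL) (hSPR : StSPR) : StNOR := by
  intro α V L hL a w X hw
  obtain ⟨l1, l2, -⟩ := hSPL α V L hL
  obtain ⟨r1, r2, -⟩ := hSPR α V L hL
  rcases w with _ | ⟨c, w0⟩
  · refine ⟨[], by simp, by simp, (cat_nil _ _).2 rfl, ?_⟩
    intro z hz
    rw [cat_nil] at hz
    rw [hz]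
    exact hw
  · obtain ⟨Y, Z, u, v, huv, hu, hv, hprod⟩ := hL.2 X (a :: c :: w0) hw (by simp)
    have hu0 : u ≠ [] := by
      rintro rfl
      exact hL.1 Y hu
    have hv0 : v ≠ [] := by
      rintro rfl
      exact hL.1 Z hv
    obtain ⟨a', u', rfl⟩ := List.exists_cons_of_ne_nil hu0
    rw [List.cons_append] at huv
    obtain ⟨haa, hw1⟩ := List.cons_eq_cons.mp huv
    subst haa
    rcases List.eq_nil_or_concat v with h0 | ⟨v', b, h0⟩
    · exact absurd h0 hv0
    · have h0' : v = v' ++ [b] := by rw [h0]; simp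
      subst h0'
      obtain ⟨P, hP, hLS⟩ := l2 a u' Y hu
      obtain ⟨Q, hQ, hRS⟩ := r2 b v' Z hv
      have e1 : ∃ γ₁ : List (Sy α V), γ₁.length ≤ 1 ∧ u' ∈ cat (Ml L) γ₁ ∧
          ∀ x ∈ cat (Ml L) γ₁, LS L Y P x := by
        by_cases hn : u' = []
        · refine ⟨[], by simp, (cat_nil _ _).2 hn, ?_⟩
          intro x hx
          rw [cat_nil] at hx
          rw [hx, ← hn]
          exact hLS
        · refine ⟨[Sy.l Y P], by simp, (cat_single _ _ _).2 ⟨hn, hLS⟩, ?_⟩
          intro x hx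
          rw [cat_single] at hx
          exact hx.2
      have e2 : ∃ γ₂ : List (Sy α V), γ₂.length ≤ 1 ∧ v' ∈ cat (Ml L) γ₂ ∧
          ∀ x ∈ cat (Ml L) γ₂, RS L Z Q x := by
        by_cases hn : v' = []
        · refine ⟨[], by simp, (cat_nil _ _).2 hn, ?_⟩
          intro x hx
          rw [cat_nil] at hx
          rw [hx, ← hn]
          exact hRS
        · refine ⟨[Sy.r Z Q], by simp, (cat_single _ _ _).2 ⟨hn, hRS⟩, ?_⟩
          intro x hx
          rw [cat_single] at hx
          exact hx.2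
      obtain ⟨γ₁, g1, g2, g3⟩ := e1
      obtain ⟨γ₂, k1, k2, k3⟩ := e2
      refine ⟨γ₁ ++ (γ₂ ++ [Sy.t b]), ?_, ?_, ?_, ?_⟩
      · simp only [List.length_append, List.length_singleton]
        omega
      · intro y hy
        have : (γ₁ ++ (γ₂ ++ [Sy.t b])).getLast? = some (Sy.t b) := by
          rw [← List.append_assoc]
          simp
        rw [this] at hy
        have hy' : y = Sy.t b := by
          simpa using hy.symm
        rw [hy']
        rfl
      · rw [hw1, cat_append]
        refine ⟨u', v' ++ [b], rfl, g2, ?_⟩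
        rw [cat_append]
        exact ⟨v', [b], rfl, k2, (cat_single _ _ _).2 rfl⟩
      · intro z hz
        rw [cat_append] at hz
        obtain ⟨u2, z2, rfl, hu2, hz2⟩ := hz
        rw [cat_append] at hz2
        obtain ⟨v2, b2, rfl, hv2, hb2⟩ := hz2
        rw [cat_single] at hb2
        have hb3 : b2 = [b] := hb2
        subst hb3
        have f1 : [a] ++ u2 ∈ L Y := l1 Y P u2 (g3 u2 hu2) [a] hP
        have f2 : v2 ++ [b] ∈ L Z := r1 Z Q v2 (k3 v2 hv2) [b] hQ
        have f3 := hprod _ f1 _ f2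
        simpa using f3

end Pool.Agent.Helper78.DR
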